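import Pool.Agent.Lib.MP_1a91b9_ntT.S8.Unr

/-!
# S8: `2` stays a non-cube in quadratic extensions
-/

set_option autoImplicit false

namespace Pool.Agent.Lib.MP_1a91b9_ntT.S8

open NumberField IsDedekindDomain Module Pool.Agent.Lib.MP_1a91b9_ntT.S5

section
variable {N F : Type*} [Field N] [NumberField N] [Field F] [NumberField F] [Algebra N F]

theorem quad_eq (h2 : finrank N F ≤ 2) (x : 𝓞 F) :
    ∃ b c : 𝓞 N, x ^ 2 + algebraMap (𝓞 N) (𝓞 F) b * x + algebraMap (𝓞 N) (𝓞 F) c = 0 := by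
  have hint : IsIntegral (𝓞 N) (x : F) := (RingOfIntegers.isIntegral_coe x).tower_top
  have hfd : FiniteDimensional N F := Module.Finite.of_restrictScalars_finite ℚ N F
  set P := minpoly (𝓞 N) (x : F) with hP
  have hmon : P.Monic := minpoly.monic hint
  have hdeg : P.natDegree ≤ 2 := by
    have h3 := minpoly.isIntegrallyClosed_eq_field_fractions' N hint
    have h4 : (minpoly N (x : F)).natDegree ≤ finrank N F := minpoly.natDegree_le _
    rw [h3, hmon.natDegree_map] at h4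
    exact h4.trans h2
  have hroot : Polynomial.aeval (x : F) P = 0 := minpoly.aeval _ _
  rw [P.as_sum_range' 3 (by omega)] at hroot
  simp only [Finset.sum_range_succ, Finset.sum_range_zero, zero_add, map_add,
    Polynomial.aeval_monomial, pow_zero, mul_one, pow_one] at hroot
  have key : ∀ b c : 𝓞 N, (x : F) ^ 2 + algebraMap (𝓞 N) F b * (x : F) + algebraMap (𝓞 N) F c = 0 →
      x ^ 2 + algebraMap (𝓞 N) (𝓞 F) b * x + algebraMap (𝓞 N) (𝓞 F) c = 0 := by
    intro b c h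
    apply RingOfIntegers.coe_injective
    rw [map_add, map_add, map_mul, map_pow, map_zero, ← IsScalarTower.algebraMap_apply,
      ← IsScalarTower.algebraMap_apply]
    exact h
  have hcases : P.natDegree = 0 ∨ P.natDegree = 1 ∨ P.natDegree = 2 := by omega
  rcases hcases with h0 | h1 | h2
  · exfalso
    have h5 : P = 1 := hmon.natDegree_eq_zero.1 h0
    have h6 := minpoly.aeval (𝓞 N) (x : F)
    rw [← hP, h5, map_one] at h6
    exact one_ne_zero h6
  · have h7 : P.coeff 1 = 1 := by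
      have := hmon.coeff_natDegree
      rwa [h1] at this
    have h8 : P.coeff 2 = 0 := Polynomial.coeff_eq_zero_of_natDegree_lt (by omega)
    rw [h7, h8, map_one, map_zero, one_mul, zero_mul, add_zero] at hroot
    refine ⟨P.coeff 0, 0, key _ _ ?_⟩
    rw [map_zero, add_zero]
    linear_combination (x : F) * hroot
  · have h7 : P.coeff 2 = 1 := by
      have := hmon.coeff_natDegree
      rwa [h2] at this
    rw [h7, map_one, one_mul] at hroot
    refine ⟨P.coeff 1, P.coeff 0, key _ _ ?_⟩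
    linear_combination hroot

theorem cube_up (h2 : finrank N F ≤ 2) (w : HeightOneSpectrum (𝓞 F))
    (hbad : ∀ x : 𝓞 N, x ^ 3 - 2 ∉ (below N w).asIdeal) (x : 𝓞 F) : x ^ 3 - 2 ∉ w.asIdeal := by
  intro hx
  obtain ⟨b, c, hbc⟩ := quad_eq h2 x
  set f := algebraMap (𝓞 N) (𝓞 F) with hf
  have h9 : f (b ^ 2 - c) * x + f (b * c - 2) ∈ w.asIdeal := by
    have h10 : f (b ^ 2 - c) * x + f (b * c - 2) = (x ^ 3 - 2) + (f b - x) *
        (x ^ 2 + f b * x + f c) := by
      rw [map_sub, map_pow, map_sub, map_mul, map_ofNat]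
      ring
    rw [h10, hbc, mul_zero, add_zero]
    exact hx
  by_cases hD : b ^ 2 - c ∈ (below N w).asIdeal
  · apply hbad b
    have h11 : f (b * c - 2) ∈ w.asIdeal := by
      have h12 := Ideal.sub_mem _ h9 (Ideal.mul_mem_right x _ ((mem_below N w _).1 hD))
      rwa [add_sub_cancel_left] at h12
    have h13 : b * c - 2 ∈ (below N w).asIdeal := (mem_below N w _).2 h11
    have h14 : b ^ 3 - 2 = b * (b ^ 2 - c) + (b * c - 2) := by ring
    rw [h14]
    exact Ideal.add_mem _ (Ideal.mul_mem_left _ _ hD) h13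
  · obtain ⟨u, i, hi, hu⟩ := (below N w).isMaximal.exists_inv hD
    apply hbad (u * (2 - b * c))
    rw [mem_below]
    have h15 : x - f (u * (2 - b * c)) ∈ w.asIdeal := by
      have h16 : x - f (u * (2 - b * c)) = f i * x + f u * (f (b ^ 2 - c) * x + f (b * c - 2)) := by
        have h17 : x = f (u * (b ^ 2 - c) + i) * x := by rw [hu, map_one, one_mul]
        calc x - f (u * (2 - b * c)) = f (u * (b ^ 2 - c) + i) * x - f (u * (2 - b * c)) := by
              rw [← h17]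
          _ = _ := by
            rw [map_add, map_mul, map_mul, map_sub f 2, map_sub f (b * c)]
            ring
      rw [h16]
      exact Ideal.add_mem _ (Ideal.mul_mem_right _ _ ((mem_below N w _).1 hi))
        (Ideal.mul_mem_left _ _ h9)
    set z := f (u * (2 - b * c)) with hz
    have h18 : f ((u * (2 - b * c)) ^ 3 - 2) = (x ^ 3 - 2) -
        (x ^ 2 + x * z + z ^ 2) * (x - z) := by
      rw [map_sub, map_pow, map_ofNat, ← hz]
      ring
    rw [h18]
    exact Ideal.sub_mem _ hx (Ideal.mul_mem_left _ _ h15)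

end

/-- `2` is not a cube modulo the places of `N` above the primes modulo which it is not a cube. -/
def NC (N : Type*) [Field N] [NumberField N] : Prop :=
  ∀ (v : HeightOneSpectrum (𝓞 N)) (p : ℕ), p.Prime → (p : 𝓞 N) ∈ v.asIdeal →
    (∀ x : ZMod p, x ^ 3 ≠ 2) → ∀ x : 𝓞 N, x ^ 3 - 2 ∉ v.asIdeal

theorem NC.up {N F : Type*} [Field N] [NumberField N] [Field F] [NumberField F] [Algebra N F]
    (h2 : finrank N F ≤ 2) (h : NC N) : NC F := by
  intro w p hp hpw hx
  refine cube_up h2 w (h (below N w) p hp ?_ hx)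
  rw [mem_below, map_natCast]
  exact hpw

theorem nc_base {N : Type*} [Field N] [NumberField N]
    (h : Function.Bijective (algebraMap ℚ N)) : NC N := by
  intro v p hp hpv hx x hxv
  obtain ⟨q, hq⟩ := h.2 (x : N)
  have hint : IsIntegral ℤ q := by
    have h1 : IsIntegral ℤ (algebraMap ℚ N q) := by
      rw [hq]
      exact RingOfIntegers.isIntegral_coe x
    exact (isIntegral_algebraMap_iff h.1).1 h1
  obtain ⟨m, hm⟩ := IsIntegrallyClosed.isIntegral_iff.1 hint
  have hxm : x = (m : 𝓞 N) := by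
    apply RingOfIntegers.coe_injective
    rw [map_intCast]
    refine hq.symm.trans ?_
    rw [← hm]
    simp
  have hmv : ((m ^ 3 - 2 : ℤ) : 𝓞 N) ∈ v.asIdeal := by
    rw [Int.cast_sub, Int.cast_pow, ← hxm]
    exact_mod_cast hxv
  apply hx (m : ZMod p)
  by_contra hne
  have hnd : ¬ (p : ℤ) ∣ m ^ 3 - 2 := by
    intro hd
    apply hne
    have h1 := (ZMod.intCast_zmod_eq_zero_iff_dvd (m ^ 3 - 2) p).2 hd
    push_cast at h1
    exact sub_eq_zero.1 h1
  have hcop : IsCoprime (p : ℤ) (m ^ 3 - 2) :=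
    (Prime.coprime_iff_not_dvd (Nat.prime_iff_prime_int.1 hp)).2 hnd
  obtain ⟨a, b, hab⟩ := hcop
  apply v.isPrime.ne_top
  rw [Ideal.eq_top_iff_one]
  have h2 : (1 : 𝓞 N) = (a : 𝓞 N) * (p : 𝓞 N) + (b : 𝓞 N) * ((m ^ 3 - 2 : ℤ) : 𝓞 N) := by
    have h3 := congrArg (fun z : ℤ => (z : 𝓞 N)) hab
    simp only [Int.cast_add, Int.cast_mul, Int.cast_natCast, Int.cast_one] at h3
    exact h3.symm
  rw [h2]
  exact add_mem (Ideal.mul_mem_left _ _ hpv) (Ideal.mul_mem_left _ _ hmv)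

theorem exists_char {N : Type*} [Field N] [NumberField N] (v : HeightOneSpectrum (𝓞 N)) :
    ∃ p : ℕ, p.Prime ∧ (p : 𝓞 N) ∈ v.asIdeal := by
  have h1 : ∃ n : ℕ, n ≠ 0 ∧ (n : 𝓞 N) ∈ v.asIdeal := by
    refine ⟨Ideal.absNorm v.asIdeal, ?_, Ideal.absNorm_mem _⟩
    rw [Ne, Ideal.absNorm_eq_zero_iff]
    exact v.ne_bot
  classical
  obtain ⟨n, ⟨hn0, hn⟩, hmin⟩ := (⟨Nat.find h1, Nat.find_spec h1, fun m hm => Nat.find_min h1 hm⟩ :
    ∃ n : ℕ, (n ≠ 0 ∧ (n : 𝓞 N) ∈ v.asIdeal) ∧ ∀ m < n, ¬ (m ≠ 0 ∧ (m : 𝓞 N) ∈ v.asIdeal))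
  refine ⟨n, ?_, hn⟩
  have hn1 : n ≠ 1 := by
    rintro rfl
    rw [Nat.cast_one] at hn
    exact v.isPrime.ne_top ((Ideal.eq_top_iff_one _).2 hn)
  by_contra hnp
  obtain ⟨a, ha, hdvd, hlt⟩ : ∃ a, a ≠ 1 ∧ a ∣ n ∧ a < n := by
    obtain ⟨a, h2, h3, h4⟩ := Nat.exists_dvd_of_not_prime2 (by omega) hnp
    exact ⟨a, by omega, h2, h4⟩
  obtain ⟨b, rfl⟩ := hdvd
  have ha0 : a ≠ 0 := by
    rintro rfl
    simp at hn0
  have hb0 : b ≠ 0 := by
    rintro rfl
    simp at hn0
  rw [Nat.cast_mul] at hn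
  rcases v.isPrime.mem_or_mem hn with h5 | h5
  · exact hmin a hlt ⟨ha0, h5⟩
  · refine hmin b ?_ ⟨hb0, h5⟩
    have ha2 : 2 ≤ a := by omega
    nlinarith [Nat.pos_of_ne_zero hb0]

end Pool.Agent.Lib.MP_1a91b9_ntT.S8
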