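import Pool.Agent.Lib.MP_1a91b9_ntT.Base
import Pool.Agent.Lib.MP_1a91b9_ntT.S5.Places

/-!
# S8: unramified places and quadratic extensions
-/

set_option autoImplicit false

namespace Pool.Agent.Lib.MP_1a91b9_ntT.S8

open NumberField IsDedekindDomain Module Pool.Agent.Lib.MP_1a91b9_ntT.S5

universe u

section
variable {N N' : Type*} [Field N] [NumberField N] [Field N'] [NumberField N'] [Algebra N N']

/-- A place of `N'` above a prime which does not divide the discriminant is unramified over `N`. -/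
theorem unr_of_discr {p : ℕ} (hp : p.Prime) (hd : ¬ (p : ℤ) ∣ discr N')
    (w : HeightOneSpectrum (𝓞 N')) (hw : (p : 𝓞 N') ∈ w.asIdeal) :
    w.asIdeal.ramificationIdx (𝓞 N) = 1 := by
  have hwp : w.asIdeal.IsPrime := w.isPrime
  have h1 : Algebra.IsUnramifiedAt ℤ w.asIdeal :=
    (not_dvd_discr_iff_forall_mem N' (𝓞 N') (Nat.prime_iff_prime_int.1 hp)).1 hd w.asIdeal
      w.isPrime (by exact_mod_cast hw)
  have h2 : Algebra.IsUnramifiedAt (𝓞 N) w.asIdeal :=
    Algebra.IsUnramifiedAt.of_restrictScalars ℤ w.asIdeal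
  exact Ideal.ramificationIdx_eq_one_of_isUnramifiedAt

theorem ram_of_discr {p : ℕ} (hp : p.Prime) (hd : ¬ (p : ℤ) ∣ discr N')
    (w : HeightOneSpectrum (𝓞 N')) (hw : (p : 𝓞 N') ∈ w.asIdeal) : ram N w = 1 := by
  have hwp : w.asIdeal.IsPrime := w.isPrime
  have h1 := unr_of_discr (N := N) hp hd w hw
  have hover : w.asIdeal.LiesOver (below N w).asIdeal := ⟨rfl⟩
  rw [ram, Ideal.ramificationIdx'_eq_ramificationIdx]
  · exact h1
  · exact (below N w).ne_bot

/-- the order of `x ^ 2` at an unramified place is even below -/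
theorem square_of_unr {p : ℕ} (hp : p.Prime) (hd : ¬ (p : ℤ) ∣ discr N')
    (w : HeightOneSpectrum (𝓞 N')) (hw : (p : 𝓞 N') ∈ w.asIdeal) (d : N) (x : N')
    (hx : x ^ 2 = algebraMap N N' d) : IsSquare ((below N w).valuation N d) := by
  have h1 := val_below N w d
  rw [ram_of_discr hp hd w hw, pow_one, ← hx, map_pow] at h1
  exact ⟨w.valuation N' x, by rw [← h1, sq]⟩

theorem oddAt_iff (v : HeightOneSpectrum (𝓞 N)) (δ : 𝓞 N) (h : OddAt v δ) :
    ¬ IsSquare (v.valuation N (δ : N)) := by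
  have hv : v.valuation N (δ : N) = v.intValuation δ := v.valuation_of_algebraMap δ
  rw [hv]
  obtain ⟨k, h1, h2⟩ := h
  have hδ : δ ≠ 0 := by
    rintro rfl
    exact h2 (Ideal.zero_mem _)
  rw [← v.intValuation_le_pow_iff_mem] at h1 h2
  rw [v.intValuation_if_neg hδ] at h1 h2 ⊢
  rw [WithZero.exp_le_exp] at h1 h2
  rintro ⟨m, hm⟩
  have hm0 : m ≠ 0 := by
    rintro rfl
    rw [mul_zero] at hm
    exact WithZero.exp_ne_zero hm
  obtain ⟨n, rfl⟩ : ∃ n : ℤ, m = WithZero.exp n := ⟨WithZero.log m, (WithZero.exp_log hm0).symm⟩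
  rw [← WithZero.exp_add, WithZero.exp_inj] at hm
  omega

end

section
variable {N N' : Type*} [Field N] [NumberField N] [Field N'] [NumberField N'] [Algebra N N']

/-- At an unramified place of a quadratic extension, the automorphism moves an integer modulo the
place. -/
theorem exists_moved (hquad : Algebra.IsQuadraticExtension N N') (σ : Gal(N'/N)) (hσ : σ ≠ 1)
    (w : HeightOneSpectrum (𝓞 N')) (hw : w.asIdeal.ramificationIdx (𝓞 N) = 1) :
    ∃ τ : 𝓞 N', σ • τ - τ ∉ w.asIdeal := by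
  have hgal : IsGalois N N' := inferInstance
  have hwp : w.asIdeal.IsPrime := w.isPrime
  have hvp : (below N w).asIdeal.IsPrime := (below N w).isPrime
  have hvm : (below N w).asIdeal.IsMaximal := (below N w).isMaximal
  have hover : w.asIdeal.LiesOver (below N w).asIdeal := ⟨rfl⟩
  have hfin : Finite (𝓞 N ⧸ (below N w).asIdeal) :=
    Ring.HasFiniteQuotients.finiteQuotient (below N w).ne_bot
  have h1 := Ideal.card_inertia_eq_ramificationIdxIn (G := Gal(N'/N)) (below N w).asIdeal w.asIdeal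
  rw [Ideal.ramificationIdxIn_eq_ramificationIdx (below N w).asIdeal w.asIdeal Gal(N'/N), hw] at h1
  by_contra hcon
  push Not at hcon
  apply hσ
  have h2 : σ ∈ AddSubgroup.inertia w.asIdeal.toAddSubgroup Gal(N'/N) := hcon
  have h3 := Subgroup.eq_bot_of_card_eq _ h1
  exact (Subgroup.mem_bot.1 (h3 ▸ h2))

end

end Pool.Agent.Lib.MP_1a91b9_ntT.S8
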