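import Pool.Agent.Lib.MP_1a91b9_ntT.S8.Delta
import Pool.Agent.Lib.MP_1a91b9_ntT.S8.Cube

/-!
# S8: subfields of Galois extensions of `ℚ` of degree a power of two are towers
-/

set_option autoImplicit false

namespace Pool.Agent.Lib.MP_1a91b9_ntT.S8

open NumberField IsDedekindDomain Module Pool.Agent.Lib.MP_1a91b9_ntT.S5

universe u

/-- The condition on the ramified primes. -/
def RamCond (F : Type*) [Field F] [NumberField F] : Prop :=
  ∀ p : ℕ, p.Prime → p ≠ 3 → (p : ℤ) ∣ discr F → ∀ x : ZMod p, x ^ 3 ≠ 2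

theorem RamCond.two {F : Type*} [Field F] [NumberField F] (h : RamCond F) :
    ¬ (2 : ℤ) ∣ discr F := by
  intro h2
  have := h 2 Nat.prime_two (by norm_num) (by exact_mod_cast h2) 0
  apply this
  decide

theorem adm_step {N N' : Type*} [Field N] [NumberField N] [Field N'] [NumberField N']
    [Algebra N N'] (h2 : finrank N N' = 2) (hr : RamCond N') (hN : NC N) :
    ∃ (δ : 𝓞 N) (x : N'), Adm N δ ∧ x ^ 2 = algebraMap N N' δ ∧
      (¬ ∃ y : N, algebraMap N N' y = x) ∧
      ∀ z : N', ∃ a b : N, z = algebraMap N N' a + algebraMap N N' b * x := by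
  obtain ⟨δ, x, hsq, hodd, hx, hn, hgen⟩ := exists_delta h2 hr.two
  refine ⟨δ, x, ⟨hsq, hodd, ?_⟩, hx, hn, hgen⟩
  intro v hv3 hv
  obtain ⟨w, rfl⟩ := exists_above N N' v
  obtain ⟨p, hp, hpw⟩ := exists_char w
  have hpv : (p : 𝓞 N) ∈ (below N w).asIdeal := by
    rw [mem_below, map_natCast]
    exact hpw
  refine hN (below N w) p hp hpv (hr p hp ?_ ?_)
  · rintro rfl
    apply hv3
    exact_mod_cast hpv
  · by_contra hd
    exact oddAt_iff _ δ hv (square_of_unr hp hd w hpw (δ : N) x hx)

theorem tower_congr {N : Type u} [Field N] [NumberField N] (h : Tower N) :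
    ∀ (N₂ : Type u) [Field N₂] [NumberField N₂] (_ : N ≃+* N₂), Tower N₂ := by
  induction h with
  | base N hb =>
    intro N₂ _ _ e
    refine Tower.base N₂ ⟨(algebraMap ℚ N₂).injective, fun y => ?_⟩
    obtain ⟨q, hq⟩ := hb.2 (e.symm y)
    refine ⟨q, ?_⟩
    have h1 : e (algebraMap ℚ N q) = algebraMap ℚ N₂ q :=
      RingHom.congr_fun (Subsingleton.elim (e.toRingHom.comp (algebraMap ℚ N)) (algebraMap ℚ N₂)) q
    rw [← h1, hq, e.apply_symm_apply]
  | step N N' δ hδ x hx hn hgen h _ =>
    intro N₂ _ _ e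
    let alg : Algebra N N₂ := (e.toRingHom.comp (algebraMap N N')).toAlgebra
    have hmap : ∀ y : N, algebraMap N N₂ y = e (algebraMap N N' y) := fun y => rfl
    refine Tower.step N N₂ δ hδ (e x) ?_ ?_ ?_ h
    · rw [← map_pow, hx, hmap]
    · rintro ⟨y, hy⟩
      apply hn
      refine ⟨y, e.injective ?_⟩
      rw [← hmap, hy]
    · intro z
      obtain ⟨a, b, hab⟩ := hgen (e.symm z)
      refine ⟨a, b, ?_⟩
      rw [hmap, hmap, ← map_mul, ← map_add, ← hab, e.apply_symm_apply]

theorem tower_inter {M : Type u} [Field M] [NumberField M] [IsGalois ℚ M] (n : ℕ)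
    (hM : finrank ℚ M = 2 ^ n) (k : ℕ) : ∀ E' : IntermediateField ℚ M, finrank ℚ E' = k →
      RamCond E' → Tower E' ∧ NC E' := by
  induction k using Nat.strong_induction_on with
  | _ k ih =>
    intro E' hk hr
    by_cases hE : finrank ℚ E' = 1
    · have hbot : E' = ⊥ := IntermediateField.finrank_eq_one_iff.1 hE
      have hb : Function.Bijective (algebraMap ℚ E') := by
        refine ⟨(algebraMap ℚ E').injective, fun y => ?_⟩
        have hy : (y : M) ∈ (⊥ : IntermediateField ℚ M) := hbot ▸ y.2
        obtain ⟨r, hr⟩ := IntermediateField.mem_bot.1 hy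
        exact ⟨r, Subtype.ext hr⟩
      exact ⟨Tower.base _ hb, nc_base hb⟩
    · have hcardG : Nat.card Gal(M/ℚ) = 2 ^ n := by
        rw [IsGalois.card_aut_eq_finrank, hM]
      have hmul : finrank ℚ E' * finrank E' M = 2 ^ n := by
        rw [Module.finrank_mul_finrank, hM]
      have hcardH : Nat.card E'.fixingSubgroup = finrank E' M :=
        IsGalois.card_fixingSubgroup_eq_finrank E'
      obtain ⟨m, hmn, hm⟩ : ∃ m ≤ n, finrank E' M = 2 ^ m :=
        (Nat.dvd_prime_pow Nat.prime_two).1 ⟨_, by rw [← hmul]; ring⟩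
      have hmlt : m < n := by
        rcases hmn.lt_or_eq with h | h
        · exact h
        · exfalso
          apply hE
          rw [hm, h] at hmul
          exact Nat.eq_of_mul_eq_mul_right (pow_pos two_pos n) (by rw [hmul, one_mul])
      have hfact : Fact (Nat.Prime 2) := ⟨Nat.prime_two⟩
      obtain ⟨H, hHcard, hHle⟩ := Sylow.exists_subgroup_card_pow_succ (p := 2) (n := m)
        (by rw [hcardG]; exact pow_dvd_pow 2 hmlt) (H := E'.fixingSubgroup) (by rw [hcardH, hm])
      set E'' : IntermediateField ℚ M := IntermediateField.fixedField H with hE''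
      have hle : E'' ≤ E' := by
        have h1 := IntermediateField.fixedField_antitone (F := ℚ) (E := M) hHle
        rwa [IsGalois.fixedField_fixingSubgroup] at h1
      have hdeg : finrank E'' M = 2 ^ (m + 1) := by
        rw [← hHcard, hE'']
        exact IntermediateField.finrank_fixedField_eq_card H
      have hmul2 : finrank ℚ E'' * finrank E'' M = 2 ^ n := by
        rw [Module.finrank_mul_finrank, hM]
      have hdbl : finrank ℚ E' = 2 * finrank ℚ E'' := by
        have hp : 0 < 2 ^ m := pow_pos two_pos m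
        rw [hdeg, ← hmul, hm, pow_succ] at hmul2
        have h3 : 2 ^ m * (2 * finrank ℚ E'') = 2 ^ m * finrank ℚ E' := by
          rw [mul_comm (2 ^ m) (finrank ℚ E'), ← hmul2]
          ring
        exact (Nat.eq_of_mul_eq_mul_left hp h3).symm
      let alg : Algebra E'' E' := (IntermediateField.inclusion hle).toRingHom.toAlgebra
      have hst : IsScalarTower ℚ E'' E' :=
        IsScalarTower.of_algebraMap_eq fun x => ((IntermediateField.inclusion hle).commutes x).symm
      have hpos : 0 < finrank ℚ E'' := finrank_pos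
      have hquad : finrank E'' E' = 2 := by
        have h4 := Module.finrank_mul_finrank ℚ E'' E'
        rw [hdbl, mul_comm] at h4
        exact Nat.eq_of_mul_eq_mul_right hpos h4
      have hr'' : RamCond E'' := fun p hp hp3 hd =>
        hr p hp hp3 (hd.trans (discr_dvd_discr E'' E'))
      obtain ⟨hT, hNC⟩ := ih (finrank ℚ E'') (by omega) E'' rfl hr''
      obtain ⟨δ, x, hδ, hx, hn, hgen⟩ := adm_step hquad hr hNC
      exact ⟨Tower.step E'' E' δ hδ x hx hn hgen hT, hNC.up hquad.le⟩

/-- Subfields of Galois extensions of `ℚ` of degree a power of two, with the ramification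
condition, are towers. -/
theorem tower_of_galois (F M : Type u) [Field F] [NumberField F] [Field M] [NumberField M]
    [Algebra F M] [IsGalois ℚ M] (n : ℕ) (hM : finrank ℚ M = 2 ^ n) (hF : RamCond F) :
    Tower F := by
  let f : F →ₐ[ℚ] M := (algebraMap F M).toRatAlgHom
  let e : F ≃ₐ[ℚ] f.fieldRange := AlgEquiv.ofInjectiveField f
  have hd : discr F = discr f.fieldRange := discr_eq_discr_of_algEquiv _ e
  have hr : RamCond f.fieldRange := fun p hp hp3 hd' => hF p hp hp3 (by rw [hd]; exact hd')
  exact tower_congr (tower_inter n hM _ f.fieldRange rfl hr).1 F e.symm.toRingEquiv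

end Pool.Agent.Lib.MP_1a91b9_ntT.S8
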