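import Pool.Agent.Lib.MP_1a91b9_ntT.S8.Unr

/-!
# S8: a quadratic extension which is unramified above `2` is generated by the square root of an
odd element which is a square modulo `4`
-/

set_option autoImplicit false

namespace Pool.Agent.Lib.MP_1a91b9_ntT.S8

open NumberField IsDedekindDomain Module Pool.Agent.Lib.MP_1a91b9_ntT.S5

section
variable {N N' : Type*} [Field N] [NumberField N] [Field N'] [NumberField N'] [Algebra N N']

theorem gal_two (h2 : finrank N N' = 2) :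
    ∃ σ : Gal(N'/N), σ ≠ 1 ∧ (∀ x, σ (σ x) = x) ∧
      ∀ x : N', σ x = x → ∃ y : N, algebraMap N N' y = x := by
  have hquad : Algebra.IsQuadraticExtension N N' := ⟨h2⟩
  have hgal : IsGalois N N' := inferInstance
  have hcard : Nat.card Gal(N'/N) = 2 := by
    rw [IsGalois.card_aut_eq_finrank, h2]
  obtain ⟨a, b, hab, huniv⟩ := Nat.card_eq_two_iff.1 hcard
  have hone : ∀ g : Gal(N'/N), g = a ∨ g = b := fun g => by
    have h1 : g ∈ ({a, b} : Set Gal(N'/N)) := huniv ▸ Set.mem_univ g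
    simpa using h1
  obtain ⟨σ, hσ, hall⟩ : ∃ σ : Gal(N'/N), σ ≠ 1 ∧ ∀ g : Gal(N'/N), g = 1 ∨ g = σ := by
    rcases hone 1 with h | h
    · exact ⟨b, fun hb => hab (by rw [← h, hb]), fun g => by rw [h]; exact hone g⟩
    · exact ⟨a, fun ha => hab (by rw [← h, ha]), fun g => by rw [h]; exact (hone g).symm⟩
  have hsq : σ * σ = 1 := by
    rcases hall (σ * σ) with h | h
    · exact h
    · exact absurd (mul_eq_left.1 h) hσ
  refine ⟨σ, hσ, fun x => ?_, fun x hx => ?_⟩
  · rw [← AlgEquiv.mul_apply, hsq, AlgEquiv.one_apply]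
  · rw [← Set.mem_range, IsGalois.mem_range_algebraMap_iff_fixed]
    intro f
    rcases hall f with rfl | rfl
    · rfl
    · exact hx

/-- an integer of `N'` fixed by `σ` comes from an integer of `N` -/
theorem int_of_fixed {σ : Gal(N'/N)}
    (hfix : ∀ x : N', σ x = x → ∃ y : N, algebraMap N N' y = x) (x : 𝓞 N')
    (hx : σ (x : N') = x) : ∃ y : 𝓞 N, algebraMap (𝓞 N) (𝓞 N') y = x := by
  obtain ⟨y, hy⟩ := hfix _ hx
  have hint : IsIntegral ℤ y := by
    have h1 : IsIntegral ℤ (algebraMap N N' y) := by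
      rw [hy]
      exact RingOfIntegers.isIntegral_coe x
    exact (isIntegral_algebraMap_iff (algebraMap N N').injective).1 h1
  refine ⟨⟨y, hint⟩, RingOfIntegers.ext ?_⟩
  exact hy

theorem finite_two (N : Type*) [Field N] [NumberField N] :
    {v : HeightOneSpectrum (𝓞 N) | (2 : 𝓞 N) ∈ v.asIdeal}.Finite := by
  have h0 : Ideal.span {(2 : 𝓞 N)} ≠ 0 := by
    intro h
    have := Ideal.span_singleton_eq_bot.mp h
    norm_num at this
  refine (Ideal.finite_factors h0).subset fun v hv => ?_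
  rw [Set.mem_ofPred_eq, Ideal.dvd_span_singleton]
  exact hv

/-- A single integer which is moved modulo all places above `2`. -/
theorem exists_tau (h2 : finrank N N' = 2) (hd : ¬ (2 : ℤ) ∣ discr N') (σ : Gal(N'/N))
    (hσ : σ ≠ 1) :
    ∃ τ : 𝓞 N', ∀ v : HeightOneSpectrum (𝓞 N), (2 : 𝓞 N) ∈ v.asIdeal →
      ∃ w : HeightOneSpectrum (𝓞 N'), below N w = v ∧ σ • τ - τ ∉ w.asIdeal := by
  classical
  have hquad : Algebra.IsQuadraticExtension N N' := ⟨h2⟩
  have habove : ∀ v : HeightOneSpectrum (𝓞 N), ∃ w : HeightOneSpectrum (𝓞 N'), below N w = v :=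
    fun v => exists_above N N' v
  choose up hup using habove
  have h2w : ∀ v : HeightOneSpectrum (𝓞 N), (2 : 𝓞 N) ∈ v.asIdeal →
      (2 : 𝓞 N') ∈ (up v).asIdeal := by
    intro v hv
    rw [← hup v, mem_below, map_ofNat] at hv
    exact hv
  have hm : ∀ v : HeightOneSpectrum (𝓞 N), (2 : 𝓞 N) ∈ v.asIdeal →
      ∃ τ : 𝓞 N', σ • τ - τ ∉ (up v).asIdeal := by
    intro v hv
    refine exists_moved hquad σ hσ (up v) (unr_of_discr Nat.prime_two (by exact_mod_cast hd) _ ?_)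
    exact_mod_cast h2w v hv
  have hm' : ∀ v : HeightOneSpectrum (𝓞 N), ∃ τ : 𝓞 N', (2 : 𝓞 N) ∈ v.asIdeal →
      σ • τ - τ ∉ (up v).asIdeal := by
    intro v
    by_cases hv : (2 : 𝓞 N) ∈ v.asIdeal
    · obtain ⟨τ, hτ⟩ := hm v hv
      exact ⟨τ, fun _ => hτ⟩
    · exact ⟨0, fun h => absurd h hv⟩
  choose t ht using hm'
  set S := (finite_two N).toFinset with hS
  have hmemS : ∀ v, v ∈ S ↔ (2 : 𝓞 N) ∈ v.asIdeal := fun v => by
    rw [hS, Set.Finite.mem_toFinset]
    rfl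
  have hcrt : ∀ v : HeightOneSpectrum (𝓞 N), ∃ e : 𝓞 N, ∀ v' ∈ S,
      e - (if v' = v then 1 else 0) ∈ v'.asIdeal := by
    intro v
    obtain ⟨y, hy⟩ := IsDedekindDomain.exists_forall_sub_mem_ideal (s := S)
      (fun v : HeightOneSpectrum (𝓞 N) => v.asIdeal) (fun _ => 1) (fun v' _ => v'.prime)
      (fun v₁ _ v₂ _ h h' => h (HeightOneSpectrum.ext h'))
      (fun v' => if v'.1 = v then (1 : 𝓞 N) else 0)
    refine ⟨y, fun v' hv' => ?_⟩
    have := hy v' hv'
    rwa [pow_one] at this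
  choose e he using hcrt
  refine ⟨∑ v ∈ S, algebraMap (𝓞 N) (𝓞 N') (e v) * t v, fun v hv => ⟨up v, hup v, ?_⟩⟩
  have hvS : v ∈ S := (hmemS v).2 hv
  intro hcon
  apply ht v hv
  have hσe : ∀ x : 𝓞 N, σ • (algebraMap (𝓞 N) (𝓞 N') x) = algebraMap (𝓞 N) (𝓞 N') x :=
    fun x => smul_algebraMap σ x
  have key : σ • (∑ v ∈ S, algebraMap (𝓞 N) (𝓞 N') (e v) * t v) -
      ∑ v ∈ S, algebraMap (𝓞 N) (𝓞 N') (e v) * t v =
      ∑ v ∈ S, algebraMap (𝓞 N) (𝓞 N') (e v) * (σ • t v - t v) := by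
    rw [Finset.smul_sum, ← Finset.sum_sub_distrib]
    refine Finset.sum_congr rfl fun v' _ => ?_
    rw [smul_mul', hσe]
    ring
  rw [key] at hcon
  have hdiff : ∑ v' ∈ S, algebraMap (𝓞 N) (𝓞 N') (e v') * (σ • t v' - t v') - (σ • t v - t v) ∈
      (up v).asIdeal := by
    have h3 : (σ • t v - t v) = ∑ v' ∈ S, algebraMap (𝓞 N) (𝓞 N') (if v = v' then 1 else 0) *
        (σ • t v' - t v') := by
      rw [Finset.sum_eq_single v]
      · rw [if_pos rfl, map_one, one_mul]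
      · intro v' _ hne
        rw [if_neg (fun h => hne h.symm), map_zero, zero_mul]
      · intro h
        exact absurd hvS h
    rw [h3, ← Finset.sum_sub_distrib]
    refine Ideal.sum_mem _ fun v' _ => ?_
    rw [← sub_mul, ← map_sub]
    refine Ideal.mul_mem_right _ _ ?_
    rw [← mem_below N, hup v]
    exact he v' v hvS
  have := sub_mem hcon hdiff
  rwa [sub_sub_cancel] at this

theorem exists_delta (h2 : finrank N N' = 2) (hd : ¬ (2 : ℤ) ∣ discr N') :
    ∃ (δ : 𝓞 N) (x : N'), (∃ a b : 𝓞 N, δ = a ^ 2 + 4 * b) ∧ IsCoprime δ 2 ∧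
      x ^ 2 = algebraMap N N' δ ∧ (¬ ∃ y : N, algebraMap N N' y = x) ∧
      ∀ z : N', ∃ a b : N, z = algebraMap N N' a + algebraMap N N' b * x := by
  obtain ⟨σ, hσ, hinv, hfix⟩ := gal_two h2
  obtain ⟨τ, hτ⟩ := exists_tau h2 hd σ hσ
  have hinv' : ∀ x : 𝓞 N', σ • (σ • x) = x := fun x => RingOfIntegers.ext (hinv _)
  obtain ⟨δ, hδ⟩ := int_of_fixed hfix ((σ • τ - τ) ^ 2) (by
    have h1 : σ • ((σ • τ - τ) ^ 2) = (σ • τ - τ) ^ 2 := by
      rw [smul_pow', smul_sub, hinv']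
      ring
    exact congrArg (fun z : 𝓞 N' => (z : N')) h1)
  obtain ⟨a, ha⟩ := int_of_fixed hfix (σ • τ + τ) (by
    have h1 : σ • (σ • τ + τ) = σ • τ + τ := by
      rw [smul_add, hinv']
      ring
    exact congrArg (fun z : 𝓞 N' => (z : N')) h1)
  obtain ⟨n, hn⟩ := int_of_fixed hfix ((σ • τ) * τ) (by
    have h1 : σ • ((σ • τ) * τ) = (σ • τ) * τ := by
      rw [smul_mul', hinv']
      ring
    exact congrArg (fun z : 𝓞 N' => (z : N')) h1)
  have hinj : Function.Injective (algebraMap (𝓞 N) (𝓞 N')) :=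
    FaithfulSMul.algebraMap_injective _ _
  have hcop : IsCoprime δ 2 := by
    rw [← Ideal.isCoprime_span_singleton_iff, Ideal.isCoprime_iff_sup_eq]
    by_contra hne
    obtain ⟨m, hm, hle⟩ := Ideal.exists_le_maximal _ hne
    have hδm : δ ∈ m := hle (Ideal.mem_sup_left (Ideal.mem_span_singleton_self _))
    have h2m : (2 : 𝓞 N) ∈ m := hle (Ideal.mem_sup_right (Ideal.mem_span_singleton_self _))
    have hm0 : m ≠ ⊥ := by
      rintro rfl
      rw [Ideal.mem_bot] at h2m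
      norm_num at h2m
    obtain ⟨w, hw, hw'⟩ := hτ ⟨m, hm.isPrime, hm0⟩ h2m
    apply hw'
    have h3 : δ ∈ (below N w).asIdeal := by
      rw [hw]
      exact hδm
    rw [mem_below, hδ] at h3
    exact w.isPrime.mem_of_pow_mem 2 h3
  set x : N' := ((σ • τ - τ : 𝓞 N') : N') with hx
  have hx2 : x ^ 2 = algebraMap N N' δ := by
    have h1 := congrArg (fun z : 𝓞 N' => (z : N')) hδ
    simp only [map_pow] at h1
    exact h1.symm
  have hσx : σ x = -x := by
    have h1 : σ • (σ • τ - τ) = -(σ • τ - τ) := by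
      rw [smul_sub, hinv']
      ring
    have h2 := congrArg (fun z : 𝓞 N' => (z : N')) h1
    simp only [map_neg] at h2
    exact h2
  have hδ0 : δ ≠ 0 := by
    rintro rfl
    obtain ⟨u, v, huv⟩ := hcop
    rw [mul_zero, zero_add] at huv
    have h3 : (2 : 𝓞 N) ∣ 1 := ⟨v, by rw [← huv]; ring⟩
    have h4 := congrArg (fun z : 𝓞 N => (Algebra.norm ℤ z)) huv
    have h5 := (Algebra.norm ℤ (S := 𝓞 N)).map_mul v 2
    have h6 : Algebra.norm ℤ (2 : 𝓞 N) = 2 ^ finrank ℤ (𝓞 N) := by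
      have h7 := Algebra.norm_algebraMap_of_basis (RingOfIntegers.basis N) (2 : ℤ)
      rw [← finrank_eq_card_basis (RingOfIntegers.basis N)] at h7
      rw [map_ofNat (algebraMap ℤ (𝓞 N))] at h7
      exact h7
    simp only [map_one] at h4
    rw [h5, h6] at h4
    have h8 : finrank ℤ (𝓞 N) ≠ 0 := by
      rw [RingOfIntegers.rank]
      exact finrank_pos.ne'
    have h9 : (2 : ℤ) ∣ 1 := by
      rw [← h4]
      exact Dvd.dvd.mul_left (dvd_pow_self _ h8) _
    norm_num at h9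
  have hx0 : x ≠ 0 := by
    intro h0
    rw [h0, zero_pow two_ne_zero] at hx2
    apply hδ0
    have h3 := (map_eq_zero (algebraMap N N')).1 hx2.symm
    exact RingOfIntegers.ext (by rw [h3]; rfl)
  refine ⟨δ, x, ⟨a, -n, ?_⟩, hcop, hx2, ?_, ?_⟩
  · apply hinj
    rw [hδ, map_add, map_mul, map_pow, map_neg, ha, hn, map_ofNat]
    ring
  · rintro ⟨y, hy⟩
    have h3 : σ x = x := by
      rw [← hy]
      exact σ.commutes y
    rw [hσx] at h3
    have h4 : (2 : N') * x = 0 := by linear_combination -h3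
    rcases mul_eq_zero.1 h4 with h5 | h5
    · norm_num at h5
    · exact hx0 h5
  · intro z
    obtain ⟨p, hp⟩ := hfix ((z + σ z) / 2) (by
      rw [map_div₀, map_add, hinv, map_ofNat, add_comm])
    obtain ⟨q, hq⟩ := hfix ((z - σ z) / (2 * x)) (by
      rw [map_div₀, map_sub, hinv, map_mul, map_ofNat, hσx]
      field_simp
      ring)
    refine ⟨p, q, ?_⟩
    rw [hp, hq]
    field_simp
    ring

end

end Pool.Agent.Lib.MP_1a91b9_ntT.S8
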